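import Mathlib

set_option autoImplicit false

namespace Pool.Agent.Lib.MP_0c59fa_nt

section field
variable {F : Type*} [Field F] [CharP F 2] (q : F)

/-- the quantity `1 + q^j` -/
def w (j : ℤ) : F := 1 + q ^ j

/-- summand `ell n k` -/
def ell : ℕ → ℕ → F
  | 0, k => (w q (4 * (k : ℤ) - 1))⁻¹
  | n + 1, k => ell n k * q ^ 2 * w q (4 * (n : ℤ) + 2) * w q (2 * (n : ℤ) + 2) /
      (w q (2 * (n : ℤ) + 4 * k + 1) * w q (2 * (n : ℤ) + 3 - 4 * k))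

variable (hq : q ≠ 0) (hw : ∀ j : ℤ, j ≠ 0 → w q j ≠ 0)

include hq in
omit [CharP F 2] in
lemma w_neg (j : ℤ) : w q (-j) = q ^ (-j) * w q j := by
  unfold w
  rw [mul_add, mul_one, ← zpow_add₀ hq]
  simp [add_comm]

include hq hw in
omit [CharP F 2] in
lemma ell_succ_k (n k : ℕ) :
    ell q n (k + 1) * (w q (2 * (n : ℤ) + 4 * k + 1) * w q (2 * (n : ℤ) + 4 * k + 3)) =
      ell q n k * q ^ (8 * k) * w q (2 * (n : ℤ) - 1 - 4 * k) * w q (2 * (n : ℤ) + 1 - 4 * k) := by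
  induction n with
  | zero =>
    have h1 : w q (4 * (k : ℤ) + 3) ≠ 0 := hw _ (by omega)
    have h2 : w q (4 * (k : ℤ) + 1) ≠ 0 := hw _ (by omega)
    have h3 : w q (4 * (k : ℤ) - 1) ≠ 0 := hw _ (by omega)
    have e1 : w q (-1 - 4 * (k : ℤ)) = q ^ (-(4 * (k : ℤ) + 1)) * w q (4 * (k : ℤ) + 1) := by
      rw [← w_neg q hq]; congr 1; ring
    have e2 : w q (1 - 4 * (k : ℤ)) = q ^ (-(4 * (k : ℤ) - 1)) * w q (4 * (k : ℤ) - 1) := by
      rw [← w_neg q hq]; congr 1; ring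
    have e3 : (q : F) ^ (8 * k) * q ^ (-(4 * (k : ℤ) + 1)) * q ^ (-(4 * (k : ℤ) - 1)) = 1 := by
      rw [← zpow_natCast, ← zpow_add₀ hq, ← zpow_add₀ hq]
      convert zpow_zero q using 2
      push_cast; ring
    simp only [ell]
    push_cast
    have c1 : 4 * ((k : ℤ) + 1) - 1 = 4 * (k : ℤ) + 3 := by ring
    rw [c1, zero_add, e1, e2]
    have : (w q (4 * (k : ℤ) - 1))⁻¹ * q ^ (8 * k) * (q ^ (-(4 * (k : ℤ) + 1)) * w q (4 * (k : ℤ) + 1)) *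
        (q ^ (-(4 * (k : ℤ) - 1)) * w q (4 * (k : ℤ) - 1)) =
        (q ^ (8 * k) * q ^ (-(4 * (k : ℤ) + 1)) * q ^ (-(4 * (k : ℤ) - 1))) *
        ((w q (4 * (k : ℤ) - 1))⁻¹ * w q (4 * (k : ℤ) - 1)) * w q (4 * (k : ℤ) + 1) := by ring
    rw [this, e3, inv_mul_cancel₀ h3]
    field_simp
  | succ n ih =>
    have h1 : w q (2 * (n : ℤ) + 4 * k + 1) ≠ 0 := hw _ (by omega)
    have h2 : w q (2 * (n : ℤ) + 3 - 4 * k) ≠ 0 := hw _ (by omega)
    have h3 : w q (2 * (n : ℤ) + 4 * k + 5) ≠ 0 := hw _ (by omega)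
    have h4 : w q (2 * (n : ℤ) - 1 - 4 * k) ≠ 0 := hw _ (by omega)
    have h5 : w q (2 * (n : ℤ) + 4 * k + 3) ≠ 0 := hw _ (by omega)
    simp only [ell]
    push_cast
    have c1 : 2 * (n : ℤ) + 4 * ((k : ℤ) + 1) + 1 = 2 * (n : ℤ) + 4 * k + 5 := by ring
    have c2 : 2 * (n : ℤ) + 3 - 4 * ((k : ℤ) + 1) = 2 * (n : ℤ) - 1 - 4 * k := by ring
    have c3 : 2 * ((n : ℤ) + 1) + 4 * (k : ℤ) + 1 = 2 * (n : ℤ) + 4 * k + 3 := by ring
    have c4 : 2 * ((n : ℤ) + 1) + 4 * (k : ℤ) + 3 = 2 * (n : ℤ) + 4 * k + 5 := by ring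
    have c5 : 2 * ((n : ℤ) + 1) - 1 - 4 * (k : ℤ) = 2 * (n : ℤ) + 1 - 4 * k := by ring
    have c6 : 2 * ((n : ℤ) + 1) + 1 - 4 * (k : ℤ) = 2 * (n : ℤ) + 3 - 4 * k := by ring
    rw [c1, c2, c3, c4, c5, c6]
    have key : ell q n (k + 1) = ell q n k * q ^ (8 * k) * w q (2 * (n : ℤ) - 1 - 4 * k) *
        w q (2 * (n : ℤ) + 1 - 4 * k) / (w q (2 * (n : ℤ) + 4 * k + 1) * w q (2 * (n : ℤ) + 4 * k + 3)) := by
      rw [eq_div_iff (mul_ne_zero h1 h5), ih]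
    rw [key]
    field_simp

/-- scaled summand -/
def M (n k : ℕ) : F := q ^ (2 * k ^ 2 + k) * ell q n k

/-- certificate -/
def H (n k : ℕ) : F := q ^ (2 * k ^ 2 + k) * ell q n k *
  (w q (4 * (k : ℤ) + 1) * q ^ (4 * (k : ℤ) - 1) * w q (2 * (n : ℤ) + 1 - 4 * k)) /
    (q ^ (2 * n) * w q (2 * (n : ℤ) + 4 * k + 1))

include hq hw in
lemma telescope (n k : ℕ) : M q n k + M q n (k + 1) = H q (n + 1) k + H q n k := by
  have h1 : w q (2 * (n : ℤ) + 4 * k + 1) ≠ 0 := hw _ (by omega)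
  have h2 : w q (2 * (n : ℤ) + 3 - 4 * k) ≠ 0 := hw _ (by omega)
  have h5 : w q (2 * (n : ℤ) + 4 * k + 3) ≠ 0 := hw _ (by omega)
  have key : ell q n (k + 1) = ell q n k * q ^ (8 * k) * w q (2 * (n : ℤ) - 1 - 4 * k) *
        w q (2 * (n : ℤ) + 1 - 4 * k) / (w q (2 * (n : ℤ) + 4 * k + 1) * w q (2 * (n : ℤ) + 4 * k + 3)) := by
      rw [eq_div_iff (mul_ne_zero h1 h5), ell_succ_k q hq hw]
  unfold M H
  rw [key]
  simp only [ell]
  push_cast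
  have c5 : 2 * ((n : ℤ) + 1) + 1 - 4 * (k : ℤ) = 2 * (n : ℤ) + 3 - 4 * k := by ring
  have c3 : 2 * ((n : ℤ) + 1) + 4 * (k : ℤ) + 1 = 2 * (n : ℤ) + 4 * k + 3 := by ring
  rw [c5, c3]
  -- set a = q^(4k-1), x = q^(2n)
  obtain ⟨a, ha⟩ : ∃ a : F, a = q ^ (4 * (k : ℤ) - 1) := ⟨_, rfl⟩
  obtain ⟨x, hx⟩ : ∃ x : F, x = q ^ (2 * (n : ℤ)) := ⟨_, rfl⟩
  have ha0 : a ≠ 0 := ha ▸ zpow_ne_zero _ hq
  have hx0 : x ≠ 0 := hx ▸ zpow_ne_zero _ hq
  have w1 : w q (2 * (n : ℤ) + 4 * k + 1) = 1 + a * q ^ 2 * x := by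
    unfold w; rw [ha, hx, ← zpow_natCast, ← zpow_add₀ hq, ← zpow_add₀ hq]; congr 2; push_cast; ring
  have w2 : w q (2 * (n : ℤ) + 4 * k + 3) = 1 + a * q ^ 4 * x := by
    unfold w; rw [ha, hx, ← zpow_natCast, ← zpow_add₀ hq, ← zpow_add₀ hq]; congr 2; push_cast; ring
  have w3 : w q (2 * (n : ℤ) + 3 - 4 * k) = 1 + x * q ^ 2 / a := by
    unfold w; rw [ha, hx, ← zpow_natCast, ← zpow_add₀ hq, ← zpow_sub₀ hq]; congr 2; push_cast; ring
  have w4 : w q (2 * (n : ℤ) + 1 - 4 * k) = 1 + x / a := by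
    unfold w; rw [ha, hx, ← zpow_sub₀ hq]; congr 2; ring
  have w5 : w q (2 * (n : ℤ) - 1 - 4 * k) = 1 + x / (a * q ^ 2) := by
    unfold w; rw [ha, hx, ← zpow_natCast, ← zpow_add₀ hq, ← zpow_sub₀ hq]; congr 2; push_cast; ring
  have w6 : w q (4 * (k : ℤ) + 1) = 1 + a * q ^ 2 := by
    unfold w; rw [ha, ← zpow_natCast, ← zpow_add₀ hq]; congr 2; push_cast; ring
  have w7 : w q (4 * (n : ℤ) + 2) = 1 + x ^ 2 * q ^ 2 := by
    unfold w; rw [hx, ← zpow_natCast, ← zpow_natCast, ← zpow_mul, ← zpow_add₀ hq]; congr 2; push_cast; ring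
  have w8 : w q (2 * (n : ℤ) + 2) = 1 + x * q ^ 2 := by
    unfold w; rw [hx, ← zpow_natCast, ← zpow_add₀ hq]; congr 2
  have e1 : (q : F) ^ (2 * n) = x := by rw [hx, ← zpow_natCast]; congr 1; 
  have e2 : (q : F) ^ (2 * (n + 1)) = x * q ^ 2 := by rw [mul_add, pow_add, e1]
  have e3 : (q : F) ^ (8 * k) = a ^ 2 * q ^ 2 := by
    rw [ha, ← zpow_natCast, ← zpow_natCast, ← zpow_natCast, ← zpow_mul, ← zpow_add₀ hq]; congr 1; push_cast; ring
  have e4 : (q : F) ^ (2 * (k + 1) ^ 2 + (k + 1)) = q ^ (2 * k ^ 2 + k) * (a * q ^ 4) := by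
    rw [ha, ← zpow_natCast, ← zpow_natCast, ← zpow_natCast, ← zpow_add₀ hq, ← zpow_add₀ hq]; congr 1; push_cast; ring
  rw [w1] at h1
  rw [w3] at h2
  rw [w2] at h5
  rw [w1, w2, w3, w4, w5, w6, w7, w8, e1, e2, e3, e4, ← ha]
  have two : (2 : F) = 0 := CharTwo.two_eq_zero
  have h2' : a + q ^ 2 * x ≠ 0 := by
    intro h
    apply h2
    field_simp
    rw [mul_zero, ← h]
    ring
  field_simp
  linear_combination (-(ell q n k) * (1 + a * q ^ 2) * (a + a * q ^ 2 * x)) * two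

include hq hw in
omit [CharP F 2] in
lemma H_zero (k : ℕ) : H q 0 k = q ^ (2 * k ^ 2 + k) := by
  have h2 : w q (4 * (k : ℤ) + 1) ≠ 0 := hw _ (by omega)
  have h3 : w q (4 * (k : ℤ) - 1) ≠ 0 := hw _ (by omega)
  have e2 : w q (1 - 4 * (k : ℤ)) = q ^ (-(4 * (k : ℤ) - 1)) * w q (4 * (k : ℤ) - 1) := by
      rw [← w_neg q hq]; congr 1; ring
  have e3 : (q : F) ^ (4 * (k : ℤ) - 1) * q ^ (-(4 * (k : ℤ) - 1)) = 1 := by
      rw [← zpow_add₀ hq]; simp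
  unfold H
  simp only [ell, Nat.cast_zero, mul_zero, zero_add, pow_zero, one_mul]
  rw [e2]
  have : (q : F) ^ (2 * k ^ 2 + k) * (w q (4 * (k : ℤ) - 1))⁻¹ *
      (w q (4 * (k : ℤ) + 1) * q ^ (4 * (k : ℤ) - 1) * (q ^ (-(4 * (k : ℤ) - 1)) * w q (4 * (k : ℤ) - 1))) =
      q ^ (2 * k ^ 2 + k) * ((w q (4 * (k : ℤ) - 1))⁻¹ * w q (4 * (k : ℤ) - 1)) *
      (q ^ (4 * (k : ℤ) - 1) * q ^ (-(4 * (k : ℤ) - 1))) * w q (4 * (k : ℤ) + 1) := by ring
  rw [this, e3, inv_mul_cancel₀ h3]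
  field_simp

include hq hw in
lemma telescope_n (N k : ℕ) :
    ∑ n ∈ Finset.range N, (M q n k + M q n (k + 1)) = H q N k + q ^ (2 * k ^ 2 + k) := by
  induction N with
  | zero =>
    rw [H_zero q hq hw, CharTwo.add_self_eq_zero]; simp
  | succ N ih =>
    rw [Finset.sum_range_succ, ih, telescope q hq hw]
    have := CharTwo.add_self_eq_zero (H q N k)
    linear_combination this

include hq hw in
lemma main_sum (N K : ℕ) :
    ∑ n ∈ Finset.range N, M q n 0 = ∑ k ∈ Finset.range K, q ^ (2 * k ^ 2 + k) +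
      ∑ k ∈ Finset.range K, H q N k + ∑ n ∈ Finset.range N, M q n K := by
  induction K with
  | zero => simp
  | succ K ih =>
    have h := telescope_n q hq hw N K
    rw [Finset.sum_add_distrib] at h
    rw [ih, Finset.sum_range_succ, Finset.sum_range_succ]
    have := CharTwo.add_self_eq_zero (∑ n ∈ Finset.range N, M q n (K + 1))
    linear_combination h - this

/-- the product `∏_{i=1}^n (1+q^{2i})` -/
def E (n : ℕ) : F := ∏ i ∈ Finset.range n, (1 + q ^ (2 * (i + 1)))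

include hq hw in
lemma ell_zero (n : ℕ) : ell q n 0 = q ^ (2 * n + 1) * E q n * (w q (2 * (n : ℤ) + 1))⁻¹ := by
  induction n with
  | zero =>
    have h3 : w q 1 ≠ 0 := hw _ (by omega)
    have e2 : w q (-1) = q ^ (-1 : ℤ) * w q 1 := w_neg q hq 1
    simp only [ell, E]
    simp only [Nat.cast_zero, mul_zero, zero_sub, zero_add, pow_one, Finset.range_zero,
      Finset.prod_empty, mul_one]
    rw [e2, mul_inv, zpow_neg_one, inv_inv]
  | succ n ih =>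
    have h1 : w q (2 * (n : ℤ) + 1) ≠ 0 := hw _ (by omega)
    have h3 : w q (2 * (n : ℤ) + 3) ≠ 0 := hw _ (by omega)
    have e1 : w q (4 * (n : ℤ) + 2) = w q (2 * (n : ℤ) + 1) ^ 2 := by
      unfold w
      rw [CharTwo.add_sq, one_pow, ← zpow_natCast, ← zpow_mul]
      congr 2; push_cast; ring
    have e2 : w q (2 * (n : ℤ) + 2) = 1 + q ^ (2 * (n + 1)) := by
      unfold w; rw [← zpow_natCast]; congr 2
    simp only [ell]
    rw [ih, e1, e2, E, E, Finset.prod_range_succ]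
    push_cast
    have c1 : 2 * (n : ℤ) + 4 * 0 + 1 = 2 * n + 1 := by ring
    have c2 : 2 * (n : ℤ) + 3 - 4 * 0 = 2 * n + 3 := by ring
    have c3 : 2 * ((n : ℤ) + 1) + 1 = 2 * n + 3 := by ring
    have c4 : 2 * (n + 1) + 1 = (2 * n + 1) + 2 := by ring
    rw [c3, c4, pow_add]
    simp only [add_zero, sub_zero]
    field_simp
    ring

/-! ### integrality -/

variable (O : Subring F) (hqO : q ∈ O) (hwO : ∀ j : ℕ, 0 < j → (w q (j : ℤ))⁻¹ ∈ O)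

include hqO in
omit [CharP F 2] in
lemma w_mem (j : ℤ) (hj : 0 ≤ j) : w q j ∈ O := by
  obtain ⟨m, rfl⟩ := Int.eq_ofNat_of_zero_le hj
  unfold w
  rw [zpow_natCast]
  exact O.add_mem O.one_mem (O.pow_mem hqO _)

include hq hqO hwO in
omit [CharP F 2] in
lemma w_inv_mem (j : ℤ) (hj : j ≠ 0) : (w q j)⁻¹ ∈ O := by
  rcases lt_trichotomy j 0 with h | h | h
  · obtain ⟨m, hm⟩ := Int.eq_ofNat_of_zero_le (show 0 ≤ -j by omega)
    have : w q j = q ^ j * w q (-j) := by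
      have := w_neg q hq (-j)
      rwa [neg_neg] at this
    rw [this, mul_inv, ← zpow_neg, hm, zpow_natCast]
    exact O.mul_mem (O.pow_mem hqO _) (hwO m (by omega))
  · exact absurd h hj
  · obtain ⟨m, hm⟩ := Int.eq_ofNat_of_zero_le h.le
    rw [hm]
    exact hwO m (by omega)

include hq hqO hwO in
omit [CharP F 2] in
lemma ell_mem (n k : ℕ) : ell q n k ∈ O := by
  induction n with
  | zero =>
    simp only [ell]
    exact w_inv_mem q hq O hqO hwO _ (by omega)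
  | succ n ih =>
    simp only [ell]
    rw [div_eq_mul_inv, mul_inv]
    refine O.mul_mem (O.mul_mem (O.mul_mem (O.mul_mem ih (O.pow_mem hqO _))
      (w_mem q O hqO _ (by omega))) (w_mem q O hqO _ (by omega)))
      (O.mul_mem (w_inv_mem q hq O hqO hwO _ (by omega)) (w_inv_mem q hq O hqO hwO _ (by omega)))

/-- units congruent to 1 modulo `q^D` -/
def U (D : ℕ) (u : F) : Prop := ∃ z ∈ O, u = 1 + q ^ D * z

include hqO in
omit [CharP F 2] in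
lemma U_mul (D : ℕ) {u v : F} (hu : U q O D u) (hv : U q O D v) : U q O D (u * v) := by
  obtain ⟨a, ha, rfl⟩ := hu
  obtain ⟨b, hb, rfl⟩ := hv
  refine ⟨a + b + q ^ D * a * b, ?_, by ring⟩
  exact O.add_mem (O.add_mem ha hb) (O.mul_mem (O.mul_mem (O.pow_mem hqO _) ha) hb)

include hqO in
omit [CharP F 2] in
lemma U_w (D : ℕ) (j : ℤ) (hj : (D : ℤ) ≤ j) : U q O D (w q j) := by
  obtain ⟨m, hm⟩ := Int.eq_ofNat_of_zero_le (show 0 ≤ j - D by omega)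
  have : j = ((D + m : ℕ) : ℤ) := by push_cast; omega
  refine ⟨q ^ m, O.pow_mem hqO _, ?_⟩
  unfold w
  rw [this, zpow_natCast, pow_add]

include hq hqO hwO hw in
lemma U_w_inv (D : ℕ) (j : ℤ) (hj : (D : ℤ) ≤ j) (hj0 : 0 < j) : U q O D (w q j)⁻¹ := by
  obtain ⟨m, hm⟩ := Int.eq_ofNat_of_zero_le (show 0 ≤ j - D by omega)
  have hj' : j = ((D + m : ℕ) : ℤ) := by push_cast; omega
  have h0 := hw j (by omega)
  refine ⟨q ^ m * (w q j)⁻¹, O.mul_mem (O.pow_mem hqO _) (w_inv_mem q hq O hqO hwO _ (by omega)), ?_⟩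
  have h1 : q ^ D * (q ^ m * (w q j)⁻¹) = (w q j - 1) * (w q j)⁻¹ := by
    rw [← mul_assoc, ← pow_add]
    congr 1
    unfold w
    rw [hj', zpow_natCast]; ring
  rw [h1, sub_mul, mul_inv_cancel₀ h0, one_mul, CharTwo.sub_eq_add, ← add_assoc,
    CharTwo.add_self_eq_zero, zero_add]

include hq hqO hwO hw in
/-- for `N` large, `ell N k` is `q^{4k(k-1)} * ell N 0` up to a unit close to 1 -/
lemma ell_asymp (D N K : ℕ) (hN : D + 4 * K + 1 ≤ 2 * N) (k : ℕ) (hk : k ≤ K) :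
    ∃ u, U q O D u ∧ ell q N k * q ^ (4 * k) = q ^ (4 * k * k) * ell q N 0 * u := by
  induction k with
  | zero => exact ⟨1, ⟨0, O.zero_mem, by ring⟩, by simp⟩
  | succ k ih =>
    obtain ⟨u, hu, h⟩ := ih (by omega)
    have h1 : w q (2 * (N : ℤ) + 4 * k + 1) ≠ 0 := hw _ (by omega)
    have h5 : w q (2 * (N : ℤ) + 4 * k + 3) ≠ 0 := hw _ (by omega)
    have key : ell q N (k + 1) = ell q N k * q ^ (8 * k) * w q (2 * (N : ℤ) - 1 - 4 * k) *
        w q (2 * (N : ℤ) + 1 - 4 * k) * ((w q (2 * (N : ℤ) + 4 * k + 1))⁻¹ *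
        (w q (2 * (N : ℤ) + 4 * k + 3))⁻¹) := by
      rw [← mul_inv, ← div_eq_mul_inv, eq_div_iff (mul_ne_zero h1 h5), ell_succ_k q hq hw]
    refine ⟨u * (w q (2 * (N : ℤ) - 1 - 4 * k) * w q (2 * (N : ℤ) + 1 - 4 * k) *
      ((w q (2 * (N : ℤ) + 4 * k + 1))⁻¹ * (w q (2 * (N : ℤ) + 4 * k + 3))⁻¹)), ?_, ?_⟩
    · refine U_mul q O hqO D hu (U_mul q O hqO D (U_mul q O hqO D ?_ ?_) (U_mul q O hqO D ?_ ?_))
      · exact U_w q O hqO D _ (by omega)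
      · exact U_w q O hqO D _ (by omega)
      · exact U_w_inv q hq hw O hqO hwO D _ (by omega) (by omega)
      · exact U_w_inv q hq hw O hqO hwO D _ (by omega) (by omega)
    · rw [key]
      have e : q ^ (8 * k) * q ^ (4 * (k + 1)) * ell q N k =
          (ell q N k * q ^ (4 * k)) * q ^ (8 * k + 4) := by ring
      have e' : q ^ (4 * (k + 1) * (k + 1)) = q ^ (4 * k * k) * q ^ (8 * k + 4) := by ring
      have : ell q N k * q ^ (8 * k) * w q (2 * (N : ℤ) - 1 - 4 * k) *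
          w q (2 * (N : ℤ) + 1 - 4 * k) * ((w q (2 * (N : ℤ) + 4 * k + 1))⁻¹ *
          (w q (2 * (N : ℤ) + 4 * k + 3))⁻¹) * q ^ (4 * (k + 1)) =
          (q ^ (8 * k) * q ^ (4 * (k + 1)) * ell q N k) * (w q (2 * (N : ℤ) - 1 - 4 * k) *
          w q (2 * (N : ℤ) + 1 - 4 * k) * ((w q (2 * (N : ℤ) + 4 * k + 1))⁻¹ *
          (w q (2 * (N : ℤ) + 4 * k + 3))⁻¹)) := by ring
      rw [this, e, h, e']
      ring

include hq hqO hwO hw in
lemma H_asymp (D N K : ℕ) (hN : D + 4 * K + 1 ≤ 2 * N) (k : ℕ) (hk : k ≤ K) :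
    ∃ u, U q O D u ∧ H q N k = q ^ (6 * k ^ 2 + k) * (1 + q ^ (4 * k + 1)) * E q N * u := by
  obtain ⟨u, hu, h⟩ := ell_asymp q hq hw O hqO hwO D N K hN k hk
  have h1 : w q (2 * (N : ℤ) + 4 * k + 1) ≠ 0 := hw _ (by omega)
  refine ⟨u * ((w q (2 * (N : ℤ) + 1))⁻¹ * w q (2 * (N : ℤ) + 1 - 4 * k) *
    (w q (2 * (N : ℤ) + 4 * k + 1))⁻¹), ?_, ?_⟩
  · refine U_mul q O hqO D hu (U_mul q O hqO D (U_mul q O hqO D ?_ ?_) ?_)
    · exact U_w_inv q hq hw O hqO hwO D _ (by omega) (by omega)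
    · exact U_w q O hqO D _ (by omega)
    · exact U_w_inv q hq hw O hqO hwO D _ (by omega) (by omega)
  · unfold H
    have e1 : (q : F) ^ (4 * (k : ℤ) - 1) = q ^ (4 * k) * q⁻¹ := by
      rw [← zpow_natCast, ← zpow_neg_one, ← zpow_add₀ hq]; congr 1
    have e2 : w q (4 * (k : ℤ) + 1) = 1 + q ^ (4 * k + 1) := by
      unfold w; rw [← zpow_natCast]; congr 2
    rw [ell_zero q hq hw] at h
    rw [e1, e2]
    have hq2 : (q : F) ^ (2 * N) ≠ 0 := pow_ne_zero _ hq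
    rw [div_eq_mul_inv, mul_inv]
    have : q ^ (2 * k ^ 2 + k) * ell q N k *
        ((1 + q ^ (4 * k + 1)) * (q ^ (4 * k) * q⁻¹) * w q (2 * (N : ℤ) + 1 - 4 * k)) *
        ((q ^ (2 * N))⁻¹ * (w q (2 * (N : ℤ) + 4 * k + 1))⁻¹) =
        q ^ (2 * k ^ 2 + k) * (ell q N k * q ^ (4 * k)) * (1 + q ^ (4 * k + 1)) * q⁻¹ *
        w q (2 * (N : ℤ) + 1 - 4 * k) * ((q ^ (2 * N))⁻¹ * (w q (2 * (N : ℤ) + 4 * k + 1))⁻¹) := by
      ring
    rw [this, h]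
    have e3 : (q : F) ^ (2 * N + 1) = q ^ (2 * N) * q := pow_succ _ _
    have e4 : (q : F) ^ (6 * k ^ 2 + k) = q ^ (2 * k ^ 2 + k) * q ^ (4 * k * k) := by
      rw [← pow_add]; congr 1; ring
    rw [e3, e4]
    field_simp

include hq hqO hwO hw in
/-- the finite congruence -/
lemma congr_field (D N : ℕ) (hN : 5 * D + 1 ≤ 2 * N) :
    ∃ z ∈ O, ∑ n ∈ Finset.range N, q ^ (2 * n + 1) * E q n * (w q (2 * (n : ℤ) + 1))⁻¹ =
      ∑ k ∈ Finset.range D, q ^ (2 * k ^ 2 + k) +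
      E q N * ∑ k ∈ Finset.range D, q ^ (6 * k ^ 2 + k) * (1 + q ^ (4 * k + 1)) + q ^ D * z := by
  have h := main_sum q hq hw N D
  -- the tail
  have h1 : ∃ z ∈ O, ∑ n ∈ Finset.range N, M q n D = q ^ D * z := by
    refine ⟨∑ n ∈ Finset.range N, q ^ (2 * D ^ 2) * ell q n D, ?_, ?_⟩
    · exact O.sum_mem fun n _ => O.mul_mem (O.pow_mem hqO _) (ell_mem q hq O hqO hwO n D)
    · rw [Finset.mul_sum]
      refine Finset.sum_congr rfl fun n _ => ?_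
      unfold M; ring
  have h2 : ∃ z ∈ O, ∑ k ∈ Finset.range D, H q N k =
      E q N * ∑ k ∈ Finset.range D, q ^ (6 * k ^ 2 + k) * (1 + q ^ (4 * k + 1)) + q ^ D * z := by
    have : ∀ k, ∃ z ∈ O, k < D → H q N k =
        E q N * (q ^ (6 * k ^ 2 + k) * (1 + q ^ (4 * k + 1))) + q ^ D * z := by
      intro k
      by_cases hk : k < D
      · obtain ⟨u, ⟨z, hz, rfl⟩, hu⟩ := H_asymp q hq hw O hqO hwO D N D (by omega) k hk.le
        refine ⟨q ^ (6 * k ^ 2 + k) * (1 + q ^ (4 * k + 1)) * E q N * z, ?_, fun _ => ?_⟩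
        · refine O.mul_mem (O.mul_mem (O.mul_mem (O.pow_mem hqO _)
            (O.add_mem O.one_mem (O.pow_mem hqO _))) ?_) hz
          exact O.prod_mem fun i _ => O.add_mem O.one_mem (O.pow_mem hqO _)
        · rw [hu]; ring
      · exact ⟨0, O.zero_mem, fun h => absurd h hk⟩
    choose z hz hz' using this
    refine ⟨∑ k ∈ Finset.range D, z k, O.sum_mem fun k _ => hz k, ?_⟩
    rw [Finset.mul_sum, Finset.mul_sum, ← Finset.sum_add_distrib]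
    refine Finset.sum_congr rfl fun k hk => hz' k (Finset.mem_range.mp hk)
  obtain ⟨z1, hz1, e1⟩ := h1
  obtain ⟨z2, hz2, e2⟩ := h2
  refine ⟨z1 + z2, O.add_mem hz1 hz2, ?_⟩
  have h3 : ∑ n ∈ Finset.range N, q ^ (2 * n + 1) * E q n * (w q (2 * (n : ℤ) + 1))⁻¹ =
      ∑ n ∈ Finset.range N, M q n 0 := by
    refine Finset.sum_congr rfl fun n _ => ?_
    unfold M
    rw [ell_zero q hq hw]; simp
  rw [h3, h, e1, e2]
  ring

end field

end Pool.Agent.Lib.MP_0c59fa_nt
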